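import Pool.Agent.R711.Filt

/-!
The degree of transitivity of `GL(V)` on the translates of a maximal filter is exactly two.
-/

set_option autoImplicit false

namespace Pool.Agent.Results.MP_5cf805_al.FilterDegreeTwo

open Pointwise Cardinal Module Pool.Agent.R711.Filt

universe u v

variable {F : Type u} {V : Type v} [Field F] [AddCommGroup V] [Module F V]

theorem eq_of_subset {𝓐 𝓑 : Set (Submodule F V)} (hA : Maximal IsFilter 𝓐) (hB : IsFilter 𝓑)
    (h : 𝓐 ⊆ 𝓑) : 𝓐 = 𝓑 := Set.Subset.antisymm h (hA.2 hB h)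

theorem ne_of_disj {𝓐 𝓑 : Set (Submodule F V)} (hA : IsFilter 𝓐) {U W : Submodule F V}
    (hU : U ∈ 𝓐) (hW : W ∈ 𝓑) (h : Disjoint U W) : 𝓐 ≠ 𝓑 := by
  rintro rfl
  have := hA.inf U hU W hW
  rw [h.eq_bot] at this
  exact hA.bot_notMem this

theorem codim_mono {X Y : Submodule F V} (h : X ≤ Y)
    (hY : Module.rank F (V ⧸ Y) = Module.rank F V) : Module.rank F (V ⧸ X) = Module.rank F V := by
  apply le_antisymm (rank_quotient_le _)
  rw [← hY]
  exact LinearMap.rank_le_of_surjective _ (Submodule.factor_surjective h)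

theorem sep (hV : ℵ₀ ≤ Module.rank F V) {𝓐 : Set (Submodule F V)} (hA : Maximal IsFilter 𝓐)
    (g : V ≃ₗ[F] V) (hg : g • 𝓐 ≠ 𝓐) :
    ∃ U ∈ 𝓐, Disjoint U (g • U) ∧ Module.rank F (V ⧸ (U ⊔ g • U)) = Module.rank F V := by
  obtain ⟨W, hW, hW'⟩ : ∃ W ∈ g • 𝓐, W ∉ 𝓐 := by
    by_contra hcon
    push Not at hcon
    exact hg (eq_of_subset (maxFilter_smul hA g) hA.1 hcon)
  obtain ⟨U₀, hU₀, hdis⟩ := max_disj hA hW'
  have hU₁ : g⁻¹ • W ∈ 𝓐 := mem_smul_set'.1 hW
  let U := U₀ ⊓ g⁻¹ • W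
  have hU : U ∈ 𝓐 := hA.1.inf _ hU₀ _ hU₁
  have hdisU : Disjoint U (g • U) := by
    have h1 : Disjoint U₀ W := disjoint_iff.2 hdis
    refine h1.mono inf_le_left ?_
    have : g • U ≤ g • (g⁻¹ • W) := smul_mono.2 inf_le_right
    rwa [smul_inv_smul] at this
  rcases lt_or_eq_of_le (Submodule.rank_le U) with hlt | heq
  · refine ⟨U, hU, hdisU, ?_⟩
    have h1 : Module.rank F (U ⊔ g • U : Submodule F V) < Module.rank F V := by
      refine (Submodule.rank_add_le_rank_add_rank _ _).trans_lt ?_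
      exact Cardinal.add_lt_of_lt hV hlt ((rank_map_le _ _).trans_lt hlt)
    have h2 := Submodule.rank_quotient_add_rank (U ⊔ g • U)
    by_contra hne
    have h3 := lt_of_le_of_ne (rank_quotient_le (U ⊔ g • U)) hne
    exact absurd h2 (Cardinal.add_lt_of_lt hV h3 h1).ne
  · obtain ⟨C₁, C₂, hC₁, hC₂, hdC, hr₁, hr₂⟩ := split U (by rw [heq]; exact hV)
    have key : ∀ C U' : Submodule F V, C ≤ U → U' ≤ U → Disjoint C U' →
        Disjoint C (U' ⊔ g • U') := by
      intro C U' hC hU' hd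
      rw [Submodule.disjoint_def] at hd ⊢
      intro x hx hx'
      obtain ⟨a, ha, b, hb, rfl⟩ := Submodule.mem_sup.1 hx'
      have hbU : b ∈ U := by
        have : b = (a + b) - a := by abel
        rw [this]
        exact U.sub_mem (hC hx) (hU' ha)
      have hb0 : b = 0 := Submodule.disjoint_def.1 hdisU b hbU (smul_mono.2 hU' hb)
      subst hb0
      rw [add_zero] at hx ⊢
      exact hd a hx ha
    by_cases hmem : C₁ ∈ 𝓐
    · refine ⟨C₁, hmem, hdisU.mono hC₁ (smul_mono.2 hC₁), ?_⟩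
      exact codim_of_disj (key C₂ C₁ hC₂ hC₁ hdC.symm) (hr₂.trans heq)
    · obtain ⟨T, hT, hTd⟩ := max_disj hA hmem
      refine ⟨T ⊓ U, hA.1.inf _ hT _ hU, hdisU.mono inf_le_right (smul_mono.2 inf_le_right), ?_⟩
      refine codim_of_disj (key C₁ (T ⊓ U) hC₁ inf_le_right ?_) (hr₁.trans heq)
      exact ((disjoint_iff.2 hTd).mono_left inf_le_left).symm

theorem smul_eq_of_fix {𝓐 : Set (Submodule F V)} (hA : Maximal IsFilter 𝓐) {U : Submodule F V}
    (hU : U ∈ 𝓐) (s g g' : V ≃ₗ[F] V) (h : ∀ u ∈ U, s (g u) = g' u) :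
    s • g • 𝓐 = g' • 𝓐 := by
  refine eq_of_subset (maxFilter_smul (maxFilter_smul hA g) s) (hA.1.smul g') ?_
  intro Y hY
  obtain ⟨Z, hZ, rfl⟩ := hY
  obtain ⟨X, hX, rfl⟩ := hZ
  simp only
  refine (hA.1.smul g').up (g' • (X ⊓ U)) (Set.smul_mem_smul_set (hA.1.inf _ hX _ hU)) _ ?_
  intro x hx
  rw [mem_smul] at hx ⊢
  rw [mem_smul]
  have h1 := h _ hx.2
  rw [LinearEquiv.apply_symm_apply] at h1
  rw [← h1]
  simpa using hx.1

theorem two_trans (hV : ℵ₀ ≤ Module.rank F V) {𝓐 : Set (Submodule F V)} (hA : Maximal IsFilter 𝓐)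
    (g t h : V ≃ₗ[F] V) (h1 : g • 𝓐 ≠ 𝓐) (h2 : h • 𝓐 ≠ t • 𝓐) :
    ∃ s : V ≃ₗ[F] V, s • 𝓐 = t • 𝓐 ∧ s • g • 𝓐 = h • 𝓐 := by
  let g' : V ≃ₗ[F] V := t⁻¹ * h
  have h3 : g' • 𝓐 ≠ 𝓐 := by
    intro h4
    apply h2
    conv_rhs => rw [← h4]
    rw [smul_smul]
    simp [g']
  obtain ⟨U₁, hU₁, hd₁, hr₁⟩ := sep hV hA g h1
  obtain ⟨U₂, hU₂, hd₂, hr₂⟩ := sep hV hA g' h3
  let U := U₁ ⊓ U₂
  have hU : U ∈ 𝓐 := hA.1.inf _ hU₁ _ hU₂
  have hd : Disjoint U (g • U) := hd₁.mono inf_le_left (smul_mono.2 inf_le_left)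
  have hd' : Disjoint U (g' • U) := hd₂.mono inf_le_right (smul_mono.2 inf_le_right)
  have hr : Module.rank F (V ⧸ (U ⊔ g • U)) = Module.rank F V :=
    codim_mono (sup_le_sup inf_le_left (smul_mono.2 inf_le_left)) hr₁
  have hr' : Module.rank F (V ⧸ (U ⊔ g' • U)) = Module.rank F V :=
    codim_mono (sup_le_sup inf_le_right (smul_mono.2 inf_le_right)) hr₂
  let f : (V ≃ₗ[F] V) → (U × U →ₗ[F] V) := fun g =>
    U.subtype.coprod ((g : V →ₗ[F] V) ∘ₗ U.subtype)
  have hinj : ∀ g : V ≃ₗ[F] V, Disjoint U (g • U) → Function.Injective (f g) := by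
    intro g hd
    rw [← LinearMap.ker_eq_bot, eq_bot_iff]
    rintro ⟨a, b⟩ hab
    have h5 : (a : V) + g b = 0 := by simpa [f] using hab
    have h6 : (a : V) = g (-b : U) := by
      rw [eq_neg_of_add_eq_zero_left h5]
      simp
    have h7 : (a : V) = 0 := by
      refine Submodule.disjoint_def.1 hd a a.2 ?_
      rw [h6]
      exact mem_smul.2 (by simp)
    have h8 : a = 0 := Subtype.ext h7
    have h9 : b = 0 := by
      rw [h7, zero_add] at h5
      have : (b : V) = 0 := by simpa using h5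
      exact Subtype.ext this
    simp [h8, h9]
  have hrange : ∀ g : V ≃ₗ[F] V, LinearMap.range (f g) = U ⊔ g • U := by
    intro g
    simp only [f]
    rw [LinearMap.range_coprod, LinearMap.range_comp, Submodule.range_subtype]
    rfl
  obtain ⟨s, hs⟩ := ext_equiv (f g) (f g') (hinj g hd) (hinj g' hd') (by
    rw [hrange, hrange, hr, hr'])
  have hs1 : ∀ u ∈ U, s ((1 : V ≃ₗ[F] V) u) = (1 : V ≃ₗ[F] V) u := by
    intro u hu
    have := hs (⟨u, hu⟩, 0)
    simpa [f] using this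
  have hs2 : ∀ u ∈ U, s (g u) = g' u := by
    intro u hu
    have := hs (0, ⟨u, hu⟩)
    simpa [f] using this
  have e1 := smul_eq_of_fix hA hU s 1 1 hs1
  have e2 := smul_eq_of_fix hA hU s g g' hs2
  rw [one_smul] at e1
  refine ⟨t * s, ?_, ?_⟩
  · rw [mul_smul, e1]
  · rw [mul_smul, e2, smul_smul]
    simp [g']

theorem exists_codim (hV : ℵ₀ ≤ Module.rank F V) {𝓐 : Set (Submodule F V)}
    (hA : Maximal IsFilter 𝓐) : ∃ U ∈ 𝓐, Module.rank F (V ⧸ U) = Module.rank F V := by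
  obtain ⟨C₁, C₂, -, -, hdC, hr₁, hr₂⟩ := split (⊤ : Submodule F V) (by rwa [rank_top])
  rw [rank_top] at hr₁ hr₂
  by_cases hmem : C₁ ∈ 𝓐
  · exact ⟨C₁, hmem, codim_of_disj hdC.symm hr₂⟩
  · obtain ⟨T, hT, hTd⟩ := max_disj hA hmem
    exact ⟨T, hT, codim_of_disj (disjoint_iff.2 hTd).symm hr₁⟩

/-- Infinitely many independent copies of `V` next to a subspace of full codimension. -/
theorem copies (hV : ℵ₀ ≤ Module.rank F V) (U : Submodule F V)
    (hU : Module.rank F (V ⧸ U) = Module.rank F V) :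
    ∃ e : (U × (ℕ →₀ V)) ≃ₗ[F] V, ∀ u : U, e (u, 0) = u := by
  obtain ⟨W, hW⟩ := Submodule.exists_isCompl U
  have h1 : Module.rank F (ℕ →₀ V) = Module.rank F W := by
    rw [rank_finsupp, ← (Submodule.quotientEquivOfIsCompl _ _ hW).rank_eq, hU]
    simp [Cardinal.aleph0_mul_eq hV]
  obtain ⟨φ⟩ := nonempty_linearEquiv_of_rank_eq h1
  refine ⟨LinearEquiv.prodCongr (LinearEquiv.refl F U) φ ≪≫ₗ Submodule.prodEquivOfIsCompl _ _ hW,
    fun u => ?_⟩
  simp

theorem translates (hV : ℵ₀ ≤ Module.rank F V) {𝓐 : Set (Submodule F V)}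
    (hA : Maximal IsFilter 𝓐) :
    ∃ (U : Submodule F V) (s : ℕ → (V ≃ₗ[F] V)) (t : V ≃ₗ[F] V), U ∈ 𝓐 ∧
      (∀ i, Disjoint U (s i • U)) ∧ (∀ i j, i ≠ j → Disjoint (s i • U) (s j • U)) ∧
      Disjoint U (t • U) ∧ Disjoint (s 0 • U) (t • U) ∧ Disjoint (s 1 • U) (U ⊔ s 0 • U) ∧
      (∀ u ∈ U, t u = u + s 0 u) := by
  obtain ⟨U, hU, hUr⟩ := exists_codim hV hA
  obtain ⟨e, he⟩ := copies hV U hUr
  let c : ℕ → (V →ₗ[F] V) := fun i => (e : (U × (ℕ →₀ V)) →ₗ[F] V) ∘ₗ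
    LinearMap.inr F U (ℕ →₀ V) ∘ₗ Finsupp.lsingle i
  have hc : ∀ i v, c i v = e (0, Finsupp.single i v) := fun i v => rfl
  have hsum : ∀ (u : U) (w : ℕ →₀ V), e (u, w) = u + e (0, w) := by
    intro u w
    have := map_add e (u, 0) (0, w)
    rw [he] at this
    simpa using this
  have hcinj : ∀ i, Function.Injective (c i) := fun i =>
    e.injective.comp (LinearMap.inr_injective.comp (Finsupp.single_injective i))
  have hcr : ∀ i, Module.rank F (LinearMap.range (c i)) = Module.rank F V := fun i =>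
    (LinearEquiv.ofInjective (c i) (hcinj i)).rank_eq.symm
  -- the copies of `U`
  have h0 : Function.Injective U.subtype := U.injective_subtype
  have h1 : ∀ i, ∃ s : V ≃ₗ[F] V, ∀ u : U, s u = c i u := by
    intro i
    have hinj : Function.Injective (c i ∘ₗ U.subtype) := (hcinj i).comp h0
    obtain ⟨s, hs⟩ := ext_equiv U.subtype (c i ∘ₗ U.subtype) h0 hinj (by
      rw [Submodule.range_subtype, hUr]
      symm
      refine codim_of_disj (C := LinearMap.range (c (i + 1))) ?_ (hcr _)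
      rw [Submodule.disjoint_def]
      rintro _ ⟨x, rfl⟩ ⟨y, hy⟩
      have h2 : e (0, Finsupp.single i (y : V)) = e (0, Finsupp.single (i + 1) x) := hy
      have h3 := congrArg Prod.snd (e.injective h2)
      have h4 := DFunLike.congr_fun h3 (i + 1)
      simp at h4
      rw [← h4]
      simp)
    exact ⟨s, fun u => hs u⟩
  choose s hs using h1
  have h2 : ∃ t : V ≃ₗ[F] V, ∀ u : U, t u = u + c 0 u := by
    have hinj : Function.Injective (U.subtype + c 0 ∘ₗ U.subtype) := by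
      rw [← LinearMap.ker_eq_bot, eq_bot_iff]
      intro u hu
      have h3 : (u : V) + c 0 u = 0 := hu
      rw [hc, ← he u, ← map_add] at h3
      have h4 := e.map_eq_zero_iff.1 h3
      have h5 := congrArg Prod.fst h4
      simpa using h5
    obtain ⟨s, hs⟩ := ext_equiv U.subtype (U.subtype + c 0 ∘ₗ U.subtype) h0 hinj (by
      rw [Submodule.range_subtype, hUr]
      symm
      refine codim_of_disj (C := LinearMap.range (c 1)) ?_ (hcr _)
      rw [Submodule.disjoint_def]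
      rintro _ ⟨x, rfl⟩ ⟨y, hy⟩
      have h2 : (y : V) + e (0, Finsupp.single 0 (y : V)) = e (0, Finsupp.single 1 x) := hy
      rw [← he y, ← map_add] at h2
      have h3 := congrArg Prod.snd (e.injective h2)
      have h4 := DFunLike.congr_fun h3 1
      simp [Finsupp.single_apply] at h4
      rw [← h4]
      simp)
    exact ⟨s, fun u => hs u⟩
  obtain ⟨t, ht⟩ := h2
  have hsU : ∀ i x, x ∈ s i • U → ∃ u : U, x = e (0, Finsupp.single i (u : V)) := by
    intro i x hx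
    rw [mem_smul] at hx
    refine ⟨⟨_, hx⟩, ?_⟩
    rw [← hc, ← hs]
    simp
  have htU : ∀ x, x ∈ t • U → ∃ u : U, x = e (u, Finsupp.single 0 (u : V)) := by
    intro x hx
    rw [mem_smul] at hx
    refine ⟨⟨_, hx⟩, ?_⟩
    have h3 := ht ⟨_, hx⟩
    rw [LinearEquiv.apply_symm_apply, hc] at h3
    rw [hsum]
    exact h3
  refine ⟨U, s, t, hU, ?_, ?_, ?_, ?_, ?_, ?_⟩
  · intro i
    rw [Submodule.disjoint_def]
    intro x hx hx'
    obtain ⟨u, hu⟩ := hsU i x hx'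
    have h3 : e (⟨x, hx⟩, 0) = e (0, Finsupp.single i (u : V)) := by rw [he, ← hu]
    have h4 := congrArg Prod.fst (e.injective h3)
    simpa using h4
  · intro i j hij
    rw [Submodule.disjoint_def]
    intro x hx hx'
    obtain ⟨u, hu⟩ := hsU i x hx
    obtain ⟨u', hu'⟩ := hsU j x hx'
    have h3 : e (0, Finsupp.single i (u : V)) = e (0, Finsupp.single j (u' : V)) := by
      rw [← hu, ← hu']
    have h4 := DFunLike.congr_fun (congrArg Prod.snd (e.injective h3)) i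
    simp only [Finsupp.single_apply, if_true] at h4
    rw [if_neg (fun h => hij h.symm)] at h4
    rw [hu, h4]
    simp
  · rw [Submodule.disjoint_def]
    intro x hx hx'
    obtain ⟨u, hu⟩ := htU x hx'
    have h3 : e (⟨x, hx⟩, 0) = e (u, Finsupp.single 0 (u : V)) := by rw [he, ← hu]
    have h4 := DFunLike.congr_fun (congrArg Prod.snd (e.injective h3)) 0
    have h5 : (u : V) = 0 := by simpa using h4.symm
    have h6 : u = 0 := Subtype.ext h5
    rw [hu, h6]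
    simp
  · rw [Submodule.disjoint_def]
    intro x hx hx'
    obtain ⟨u', hu'⟩ := hsU 0 x hx
    obtain ⟨u, hu⟩ := htU x hx'
    have h3 : e (0, Finsupp.single 0 (u' : V)) = e (u, Finsupp.single 0 (u : V)) := by
      rw [← hu, ← hu']
    have h4 := congrArg Prod.fst (e.injective h3)
    have h6 : u = 0 := by simpa using h4.symm
    rw [hu, h6]
    simp
  · rw [Submodule.disjoint_def]
    intro x hx hx'
    obtain ⟨u₁, hu₁⟩ := hsU 1 x hx
    obtain ⟨a, ha, b, hb, hab⟩ := Submodule.mem_sup.1 hx'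
    obtain ⟨u₂, hu₂⟩ := hsU 0 b hb
    have h3 : e (⟨a, ha⟩, Finsupp.single 0 (u₂ : V)) = e (0, Finsupp.single 1 (u₁ : V)) := by
      rw [← hu₁, ← hab, hu₂, hsum]
    have h4 := DFunLike.congr_fun (congrArg Prod.snd (e.injective h3)) 1
    simp [Finsupp.single_apply] at h4
    rw [hu₁, ← h4]
    simp
  · intro u hu
    have := ht ⟨u, hu⟩
    rw [this, hs 0 ⟨u, hu⟩]

/-- The action of `GL(V)` on the orbit of a maximal filter is `k`-transitive exactly for
`k ≤ 2`. -/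
theorem result (F : Type u) (V : Type v) [Field F] [AddCommGroup V] [Module F V]
    (hV : ℵ₀ ≤ Module.rank F V) (𝓕 : Set (Submodule F V)) (h𝓕 : Maximal IsFilter 𝓕) (k : ℕ) :
    MulAction.IsMultiplyPretransitive (V ≃ₗ[F] V) (MulAction.orbit (V ≃ₗ[F] V) 𝓕) k ↔
      k ≤ 2 := by
  obtain ⟨U, s, t, hU, hd1, hd2, hd3, hd4, hd5, ht⟩ := translates hV h𝓕
  let a : MulAction.orbit (V ≃ₗ[F] V) 𝓕 := ⟨𝓕, MulAction.mem_orbit_self 𝓕⟩
  let b : ℕ → MulAction.orbit (V ≃ₗ[F] V) 𝓕 := fun i => ⟨s i • 𝓕, MulAction.mem_orbit _ _⟩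
  let c : MulAction.orbit (V ≃ₗ[F] V) 𝓕 := ⟨t • 𝓕, MulAction.mem_orbit _ _⟩
  have hb : Function.Injective b := by
    intro i j hij
    by_contra hne
    refine ne_of_disj (h𝓕.1.smul (s i)) (Set.smul_mem_smul_set hU)
      (Set.smul_mem_smul_set (a := s j) hU) (hd2 i j hne) ?_
    exact congrArg Subtype.val hij
  have hinf : Infinite (MulAction.orbit (V ≃ₗ[F] V) 𝓕) := Infinite.of_injective b hb
  have h2 : MulAction.IsMultiplyPretransitive (V ≃ₗ[F] V) (MulAction.orbit (V ≃ₗ[F] V) 𝓕) 2 := by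
    rw [MulAction.is_two_pretransitive_iff]
    rintro ⟨_, ⟨x, rfl⟩⟩ ⟨_, ⟨y, rfl⟩⟩ ⟨_, ⟨z, rfl⟩⟩ ⟨_, ⟨w, rfl⟩⟩ hxy hzw
    have hxy' : y • 𝓕 ≠ x • 𝓕 := fun h => hxy (Subtype.ext h.symm)
    have hzw' : w • 𝓕 ≠ z • 𝓕 := fun h => hzw (Subtype.ext h.symm)
    obtain ⟨r, hr1, hr2⟩ := two_trans hV (maxFilter_smul h𝓕 x) (y * x⁻¹) (z * x⁻¹) (w * x⁻¹)
      (by simpa [smul_smul] using hxy') (by simpa [smul_smul] using hzw')
    refine ⟨r, Subtype.ext ?_, Subtype.ext ?_⟩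
    · simpa [smul_smul] using hr1
    · simpa [smul_smul, mul_assoc] using hr2
  constructor
  · intro hk
    by_contra hlt
    push Not at hlt
    have h3 : MulAction.IsMultiplyPretransitive (V ≃ₗ[F] V)
        (MulAction.orbit (V ≃ₗ[F] V) 𝓕) 3 :=
      MulAction.isMultiplyPretransitive_of_le' (n := k) hlt (by simp)
    have hab : ∀ i, a ≠ b i := fun i h => ne_of_disj h𝓕.1 hU
      (Set.smul_mem_smul_set (a := s i) hU) (hd1 i) (congrArg Subtype.val h)
    have hac : a ≠ c := fun h => ne_of_disj h𝓕.1 hU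
      (Set.smul_mem_smul_set (a := t) hU) hd3 (congrArg Subtype.val h)
    have hbc : b 0 ≠ c := fun h => ne_of_disj (h𝓕.1.smul (s 0)) (Set.smul_mem_smul_set hU)
      (Set.smul_mem_smul_set (a := t) hU) hd4 (congrArg Subtype.val h)
    have hbb : b 0 ≠ b 1 := fun h => absurd (hb h) (by simp)
    let x : Fin 3 ↪ MulAction.orbit (V ≃ₗ[F] V) 𝓕 := ⟨![a, b 0, c], by
      intro i j hij
      fin_cases i <;> fin_cases j <;> simp_all [hab 0, hac, hbc, (hab 0).symm, hac.symm, hbc.symm]⟩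
    let y : Fin 3 ↪ MulAction.orbit (V ≃ₗ[F] V) 𝓕 := ⟨![a, b 0, b 1], by
      intro i j hij
      fin_cases i <;> fin_cases j <;>
        simp_all [hab 0, hab 1, hbb, (hab 0).symm, (hab 1).symm, hbb.symm]⟩
    obtain ⟨r, hr⟩ := h3.exists_smul_eq x y
    have hr0 : r • a = a := DFunLike.congr_fun hr 0
    have hr1 : r • b 0 = b 0 := DFunLike.congr_fun hr 1
    have hr2 : r • c = b 1 := DFunLike.congr_fun hr 2
    have hr0' : r • 𝓕 = 𝓕 := congrArg Subtype.val hr0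
    have hr1' : r • s 0 • 𝓕 = s 0 • 𝓕 := congrArg Subtype.val hr1
    have hr2' : r • t • 𝓕 = s 1 • 𝓕 := congrArg Subtype.val hr2
    have m1 : r⁻¹ • U ∈ 𝓕 := by
      rw [← mem_smul_set', hr0']
      exact hU
    have m2 : r⁻¹ • s 0 • U ∈ s 0 • 𝓕 := by
      rw [← mem_smul_set', hr1']
      exact Set.smul_mem_smul_set hU
    have m3 : r⁻¹ • U ⊔ r⁻¹ • s 0 • U ∈ t • 𝓕 := by
      obtain ⟨Z, hZ, hZ'⟩ := m2
      simp only at hZ'
      have h5 := h𝓕.1.inf _ (h𝓕.1.inf _ m1 _ hZ) _ hU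
      refine (h𝓕.1.smul t).up _ (Set.smul_mem_smul_set h5) _ ?_
      rw [← hZ']
      intro x hx
      rw [mem_smul] at hx
      obtain ⟨⟨hx1, hx2⟩, hx3⟩ := hx
      have h6 := ht _ hx3
      rw [LinearEquiv.apply_symm_apply] at h6
      rw [h6]
      refine Submodule.add_mem_sup hx1 ?_
      rw [mem_smul]
      simpa using hx2
    have m4 : U ⊔ s 0 • U ∈ s 1 • 𝓕 := by
      rw [← smul_sup', ← mem_smul_set', hr2'] at m3
      exact m3
    have m5 := (h𝓕.1.smul (s 1)).inf _ (Set.smul_mem_smul_set (a := s 1) hU) _ m4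
    rw [hd5.eq_bot] at m5
    exact (h𝓕.1.smul (s 1)).bot_notMem m5
  · intro hk
    exact MulAction.isMultiplyPretransitive_of_le' (n := 2) hk (by simp)

end Pool.Agent.Results.MP_5cf805_al.FilterDegreeTwo
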