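import Pool.Agent.R711.Filt

/-!
The degree of transitivity of `GL(V)` on the translates of a maximal ideal is exactly two.
-/

set_option autoImplicit false

namespace Pool.Agent.Results.MP_5cf805_al.IdealDegreeTwo

open Pointwise Cardinal Module Pool.Agent.R711.Filt

universe u v

variable {F : Type u} {V : Type v} [Field F] [AddCommGroup V] [Module F V]

theorem eq_of_subset {𝓐 𝓑 : Set (Submodule F V)} (hA : Maximal IsIdeal 𝓐) (hB : IsIdeal 𝓑)
    (h : 𝓐 ⊆ 𝓑) : 𝓐 = 𝓑 := Set.Subset.antisymm h (hA.2 hB h)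

theorem ne_of_codisj {𝓐 𝓑 : Set (Submodule F V)} (hA : IsIdeal 𝓐) {U W : Submodule F V}
    (hU : U ∈ 𝓐) (hW : W ∈ 𝓑) (h : U ⊔ W = ⊤) : 𝓐 ≠ 𝓑 := by
  rintro rfl
  have := hA.sup U hU W hW
  rw [h] at this
  exact hA.top_notMem this

theorem rank_mono {X Y : Submodule F V} (h : X ≤ Y)
    (hX : Module.rank F X = Module.rank F V) : Module.rank F Y = Module.rank F V := by
  apply le_antisymm (Submodule.rank_le _)
  rw [← hX]
  exact Submodule.rank_mono h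

theorem sup_top {A B : Submodule F V} (h : ∀ x, ∃ y ∈ B, x - y ∈ A) : A ⊔ B = ⊤ := by
  rw [eq_top_iff]
  intro x _
  obtain ⟨y, hy, hxy⟩ := h x
  rw [← sub_add_cancel x y]
  exact Submodule.add_mem_sup hxy hy

theorem rank_of_codisj {C W : Submodule F V} (h : C ⊔ W = ⊤)
    (hC : Module.rank F (V ⧸ C) = Module.rank F V) : Module.rank F W = Module.rank F V := by
  apply le_antisymm (Submodule.rank_le _)
  rw [← hC]
  have hsurj : Function.Surjective (C.mkQ ∘ₗ W.subtype) := by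
    intro q
    obtain ⟨x, rfl⟩ := C.mkQ_surjective q
    have hx : x ∈ C ⊔ W := by rw [h]; trivial
    obtain ⟨c, hc, w, hw, rfl⟩ := Submodule.mem_sup.1 hx
    refine ⟨⟨w, hw⟩, ?_⟩
    simp [(Submodule.Quotient.mk_eq_zero C).2 hc]
  exact LinearMap.rank_le_of_surjective _ hsurj

/-- A quotient of infinite dimension has two complementary quotients of the same dimension. -/
theorem cosplit (U : Submodule F V) (hU : ℵ₀ ≤ Module.rank F (V ⧸ U)) :
    ∃ C₁ C₂ : Submodule F V, U ≤ C₁ ∧ U ≤ C₂ ∧ C₁ ⊔ C₂ = ⊤ ∧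
      Module.rank F (V ⧸ C₁) = Module.rank F (V ⧸ U) ∧
      Module.rank F (V ⧸ C₂) = Module.rank F (V ⧸ U) := by
  have h1 : Module.rank F (V ⧸ U) = Module.rank F ((V ⧸ U) × (V ⧸ U)) := by
    rw [rank_prod', Cardinal.add_eq_self hU]
  obtain ⟨e⟩ := nonempty_linearEquiv_of_rank_eq h1
  let f₁ : V →ₗ[F] (V ⧸ U) := LinearMap.fst F _ _ ∘ₗ (e : (V ⧸ U) →ₗ[F] (V ⧸ U) × (V ⧸ U)) ∘ₗ U.mkQ
  let f₂ : V →ₗ[F] (V ⧸ U) := LinearMap.snd F _ _ ∘ₗ (e : (V ⧸ U) →ₗ[F] (V ⧸ U) × (V ⧸ U)) ∘ₗ U.mkQ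
  have hf₁ : Function.Surjective f₁ :=
    Prod.fst_surjective.comp (e.surjective.comp U.mkQ_surjective)
  have hf₂ : Function.Surjective f₂ :=
    Prod.snd_surjective.comp (e.surjective.comp U.mkQ_surjective)
  refine ⟨LinearMap.ker f₁, LinearMap.ker f₂, ?_, ?_, ?_, ?_, ?_⟩
  · intro x hx
    have : U.mkQ x = 0 := (Submodule.Quotient.mk_eq_zero U).2 hx
    simp [f₁, this]
  · intro x hx
    have : U.mkQ x = 0 := (Submodule.Quotient.mk_eq_zero U).2 hx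
    simp [f₂, this]
  · refine sup_top fun x => ?_
    obtain ⟨y, hy⟩ := (e.surjective.comp U.mkQ_surjective) ((e (U.mkQ x)).1, 0)
    have hy' : e (U.mkQ y) = ((e (U.mkQ x)).1, 0) := hy
    refine ⟨y, ?_, ?_⟩
    · rw [LinearMap.mem_ker]
      simp only [f₂, LinearMap.comp_apply, LinearEquiv.coe_coe, hy', LinearMap.snd_apply]
    · rw [LinearMap.mem_ker, map_sub, sub_eq_zero]
      simp only [f₁, LinearMap.comp_apply, LinearEquiv.coe_coe, hy', LinearMap.fst_apply]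
  · exact (f₁.quotKerEquivOfSurjective hf₁).rank_eq
  · exact (f₂.quotKerEquivOfSurjective hf₂).rank_eq

theorem sep (hV : ℵ₀ ≤ Module.rank F V) {𝓐 : Set (Submodule F V)} (hA : Maximal IsIdeal 𝓐)
    (g : V ≃ₗ[F] V) (hg : g • 𝓐 ≠ 𝓐) :
    ∃ U ∈ 𝓐, U ⊔ g • U = ⊤ ∧
      Module.rank F (U ⊓ g • U : Submodule F V) = Module.rank F V := by
  obtain ⟨W, hW, hW'⟩ : ∃ W ∈ g • 𝓐, W ∉ 𝓐 := by
    by_contra hcon
    push Not at hcon
    exact hg (eq_of_subset (maxIdeal_smul hA g) hA.1 hcon)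
  obtain ⟨U₀, hU₀, hdis⟩ := max_codisj hA hW'
  have hU₁ : g⁻¹ • W ∈ 𝓐 := mem_smul_set'.1 hW
  let U := U₀ ⊔ g⁻¹ • W
  have hU : U ∈ 𝓐 := hA.1.sup _ hU₀ _ hU₁
  have hdisU : U ⊔ g • U = ⊤ := by
    rw [eq_top_iff, ← hdis]
    refine sup_le_sup le_sup_left ?_
    have : g • (g⁻¹ • W) ≤ g • U := smul_mono.2 le_sup_right
    rwa [smul_inv_smul] at this
  have hmono : ∀ {X : Submodule F V}, U ≤ X → X ⊔ g • X = ⊤ := by
    intro X hX
    rw [eq_top_iff, ← hdisU]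
    exact sup_le_sup hX (smul_mono.2 hX)
  rcases lt_or_eq_of_le (rank_quotient_le U) with hlt | heq
  · refine ⟨U, hU, hdisU, ?_⟩
    have h0 : Module.rank F (V ⧸ g • U) ≤ Module.rank F (V ⧸ U) := by
      have hle : U ≤ (g • U).comap (g : V →ₗ[F] V) := by
        intro x hx
        exact mem_smul.2 (by simpa using hx)
      refine LinearMap.rank_le_of_surjective (U.mapQ (g • U) (g : V →ₗ[F] V) hle) ?_
      intro q
      obtain ⟨x, rfl⟩ := (g • U).mkQ_surjective q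
      exact ⟨U.mkQ (g.symm x), by simp⟩
    have h1 : Module.rank F (V ⧸ (U ⊓ g • U)) < Module.rank F V := by
      have h2 : Module.rank F (V ⧸ (U ⊓ g • U)) ≤ Module.rank F ((V ⧸ U) × (V ⧸ g • U)) := by
        have hle : U ⊓ g • U ≤ LinearMap.ker (U.mkQ.prod (g • U).mkQ) := by
          intro x hx
          rw [LinearMap.mem_ker]
          simpa [Prod.ext_iff] using hx
        refine LinearMap.rank_le_of_injective ((U ⊓ g • U).liftQ (U.mkQ.prod (g • U).mkQ) hle) ?_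
        rw [← LinearMap.ker_eq_bot, Submodule.ker_liftQ_eq_bot]
        intro x hx
        have hx' : U.mkQ x = 0 ∧ (g • U).mkQ x = 0 := Prod.ext_iff.1 hx
        exact ⟨(Submodule.Quotient.mk_eq_zero U).1 hx'.1,
          (Submodule.Quotient.mk_eq_zero (g • U)).1 hx'.2⟩
      rw [rank_prod'] at h2
      exact h2.trans_lt (Cardinal.add_lt_of_lt hV hlt (h0.trans_lt hlt))
    have h2 := Submodule.rank_quotient_add_rank (U ⊓ g • U)
    by_contra hne
    have h3 := lt_of_le_of_ne (Submodule.rank_le (U ⊓ g • U)) hne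
    exact absurd h2 (Cardinal.add_lt_of_lt hV h1 h3).ne
  · obtain ⟨C₁, C₂, hC₁, hC₂, hdC, hr₁, hr₂⟩ := cosplit U (by rw [heq]; exact hV)
    have key : ∀ C U' : Submodule F V, U ≤ C → U ≤ U' → C ⊔ U' = ⊤ →
        C ⊔ (U' ⊓ g • U') = ⊤ := by
      intro C U' hC hU' hd
      refine sup_top fun x => ?_
      have hx : x ∈ C ⊔ U' := by rw [hd]; trivial
      obtain ⟨c, hc, u', hu', rfl⟩ := Submodule.mem_sup.1 hx
      have hx' : u' ∈ U ⊔ g • U := by rw [hdisU]; trivial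
      obtain ⟨a, ha, b, hb, rfl⟩ := Submodule.mem_sup.1 hx'
      refine ⟨b, ⟨?_, smul_mono.2 hU' hb⟩, ?_⟩
      · have : b = (a + b) - a := by abel
        rw [this]
        exact U'.sub_mem hu' (hU' ha)
      · have : c + (a + b) - b = c + a := by abel
        rw [this]
        exact C.add_mem hc (hC ha)
    by_cases hmem : C₁ ∈ 𝓐
    · refine ⟨C₁, hmem, hmono hC₁, ?_⟩
      exact rank_of_codisj (key C₂ C₁ hC₂ hC₁ (by rw [sup_comm]; exact hdC)) (hr₂.trans heq)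
    · obtain ⟨T, hT, hTd⟩ := max_codisj hA hmem
      refine ⟨T ⊔ U, hA.1.sup _ hT _ hU, hmono le_sup_right, ?_⟩
      refine rank_of_codisj (key C₁ (T ⊔ U) hC₁ le_sup_right ?_) (hr₁.trans heq)
      rw [eq_top_iff, ← hTd, sup_comm]
      exact sup_le_sup_left le_sup_left _

theorem smul_eq_of_fix {𝓐 : Set (Submodule F V)} (hA : Maximal IsIdeal 𝓐) {U : Submodule F V}
    (hU : U ∈ 𝓐) (s g g' : V ≃ₗ[F] V) (h : ∀ x, g'.symm (s (g x)) - x ∈ U) :
    s • g • 𝓐 = g' • 𝓐 := by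
  refine eq_of_subset (maxIdeal_smul (maxIdeal_smul hA g) s) (hA.1.smul g') ?_
  intro Y hY
  obtain ⟨Z, hZ, rfl⟩ := hY
  obtain ⟨X, hX, rfl⟩ := hZ
  simp only
  refine (hA.1.smul g').down (g' • (X ⊔ U)) (Set.smul_mem_smul_set (hA.1.sup _ hX _ hU)) _ ?_
  intro x hx
  rw [mem_smul] at hx ⊢
  rw [mem_smul] at hx
  have h1 := h (g.symm (s.symm x))
  simp only [LinearEquiv.apply_symm_apply] at h1
  have : g'.symm x = g.symm (s.symm x) + (g'.symm x - g.symm (s.symm x)) := by abel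
  rw [this]
  exact Submodule.add_mem_sup hx h1

theorem two_trans (hV : ℵ₀ ≤ Module.rank F V) {𝓐 : Set (Submodule F V)} (hA : Maximal IsIdeal 𝓐)
    (g t h : V ≃ₗ[F] V) (h1 : g • 𝓐 ≠ 𝓐) (h2 : h • 𝓐 ≠ t • 𝓐) :
    ∃ s : V ≃ₗ[F] V, s • 𝓐 = t • 𝓐 ∧ s • g • 𝓐 = h • 𝓐 := by
  let g' : V ≃ₗ[F] V := t⁻¹ * h
  have h3 : g' • 𝓐 ≠ 𝓐 := by
    intro h4
    apply h2
    conv_rhs => rw [← h4]
    rw [smul_smul]
    simp [g']
  obtain ⟨U₁, hU₁, hd₁, hr₁⟩ := sep hV hA g h1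
  obtain ⟨U₂, hU₂, hd₂, hr₂⟩ := sep hV hA g' h3
  let U := U₁ ⊔ U₂
  have hU : U ∈ 𝓐 := hA.1.sup _ hU₁ _ hU₂
  have hd : U ⊔ g • U = ⊤ := by
    rw [eq_top_iff, ← hd₁]
    exact sup_le_sup le_sup_left (smul_mono.2 le_sup_left)
  have hd' : U ⊔ g' • U = ⊤ := by
    rw [eq_top_iff, ← hd₂]
    exact sup_le_sup le_sup_right (smul_mono.2 le_sup_right)
  have hr : Module.rank F (U ⊓ g • U : Submodule F V) = Module.rank F V :=
    rank_mono (inf_le_inf le_sup_left (smul_mono.2 le_sup_left)) hr₁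
  have hr' : Module.rank F (U ⊓ g' • U : Submodule F V) = Module.rank F V :=
    rank_mono (inf_le_inf le_sup_right (smul_mono.2 le_sup_right)) hr₂
  let f : (V ≃ₗ[F] V) → (V →ₗ[F] (V ⧸ U) × (V ⧸ U)) := fun g =>
    U.mkQ.prod (U.mkQ ∘ₗ (g.symm : V →ₗ[F] V))
  have hker : ∀ g : V ≃ₗ[F] V, LinearMap.ker (f g) = U ⊓ g • U := by
    intro g
    ext x
    rw [LinearMap.mem_ker, Submodule.mem_inf, mem_smul]
    simp [f, Prod.ext_iff]
  have hsurj : ∀ g : V ≃ₗ[F] V, U ⊔ g • U = ⊤ → Function.Surjective (f g) := by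
    rintro g hd ⟨q₁, q₂⟩
    obtain ⟨x₁, rfl⟩ := U.mkQ_surjective q₁
    obtain ⟨x₂, rfl⟩ := U.mkQ_surjective q₂
    have hx : x₁ - g x₂ ∈ U ⊔ g • U := by rw [hd]; trivial
    obtain ⟨a, ha, b, hb, hab⟩ := Submodule.mem_sup.1 hx
    refine ⟨g x₂ + b, ?_⟩
    have e1 : U.mkQ (g x₂ + b) = U.mkQ x₁ := by
      have : x₁ = (g x₂ + b) + a := by
        calc x₁ = (x₁ - g x₂) + g x₂ := by abel
          _ = (a + b) + g x₂ := by rw [hab]
          _ = (g x₂ + b) + a := by abel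
      rw [this, map_add U.mkQ _ a, Submodule.mkQ_apply, Submodule.mkQ_apply,
        (Submodule.Quotient.mk_eq_zero U).2 ha, add_zero]
    have e2 : U.mkQ (g.symm (g x₂ + b)) = U.mkQ x₂ := by
      rw [mem_smul] at hb
      rw [map_add, LinearEquiv.symm_apply_apply, map_add, Submodule.mkQ_apply U (g.symm b),
        (Submodule.Quotient.mk_eq_zero U).2 hb, add_zero]
    exact Prod.ext e1 e2
  obtain ⟨s, hs⟩ := lift_equiv (f g) (f g') (hsurj g hd) (hsurj g' hd') (by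
    rw [hker, hker, hr, hr'])
  have hs1 : ∀ x, (1 : V ≃ₗ[F] V).symm (s ((1 : V ≃ₗ[F] V) x)) - x ∈ U := by
    intro x
    have h5 : U.mkQ (s x) = U.mkQ x := congrArg Prod.fst (hs x)
    exact (Submodule.Quotient.eq U).1 h5
  have hs2 : ∀ x, g'.symm (s (g x)) - x ∈ U := by
    intro x
    have h5 : U.mkQ (g'.symm (s (g x))) = U.mkQ (g.symm (g x)) := congrArg Prod.snd (hs (g x))
    rw [LinearEquiv.symm_apply_apply] at h5
    exact (Submodule.Quotient.eq U).1 h5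
  have e1 := smul_eq_of_fix hA hU s 1 1 hs1
  have e2 := smul_eq_of_fix hA hU s g g' hs2
  rw [one_smul] at e1
  refine ⟨t * s, ?_, ?_⟩
  · rw [mul_smul, e1]
  · rw [mul_smul, e2, smul_smul]
    simp [g']

theorem exists_dim (hV : ℵ₀ ≤ Module.rank F V) {𝓐 : Set (Submodule F V)}
    (hA : Maximal IsIdeal 𝓐) : ∃ U ∈ 𝓐, Module.rank F U = Module.rank F V := by
  obtain ⟨C₁, C₂, -, -, hdC, hr₁, hr₂⟩ := split (⊤ : Submodule F V) (by rwa [rank_top])
  rw [rank_top] at hr₁ hr₂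
  by_cases hmem : C₁ ∈ 𝓐
  · exact ⟨C₁, hmem, hr₁⟩
  · obtain ⟨T, hT, hTd⟩ := max_codisj hA hmem
    refine ⟨T, hT, rank_of_codisj (C := C₁) (by rw [sup_comm]; exact hTd) ?_⟩
    exact codim_of_disj hdC.symm hr₂

/-- Infinitely many independent copies of `V` inside a subspace of full dimension. -/
theorem copies (hV : ℵ₀ ≤ Module.rank F V) (U : Submodule F V)
    (hU : Module.rank F U = Module.rank F V) :
    ∃ e : V ≃ₗ[F] ((V ⧸ U) × (ℕ →₀ V)), ∀ x, (e x).1 = U.mkQ x := by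
  obtain ⟨W, hW⟩ := Submodule.exists_isCompl U
  have h1 : Module.rank F U = Module.rank F (ℕ →₀ V) := by
    rw [rank_finsupp, hU]
    simp [Cardinal.aleph0_mul_eq hV]
  obtain ⟨φ⟩ := nonempty_linearEquiv_of_rank_eq h1
  let q : W ≃ₗ[F] (V ⧸ U) := (Submodule.quotientEquivOfIsCompl _ _ hW).symm
  refine ⟨(Submodule.prodEquivOfIsCompl _ _ hW).symm ≪≫ₗ LinearEquiv.prodComm F U W ≪≫ₗ
    LinearEquiv.prodCongr q φ, fun x => ?_⟩
  obtain ⟨⟨a, b⟩, rfl⟩ := (Submodule.prodEquivOfIsCompl _ _ hW).surjective x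
  simp [q]

theorem translates (hV : ℵ₀ ≤ Module.rank F V) {𝓐 : Set (Submodule F V)}
    (hA : Maximal IsIdeal 𝓐) :
    ∃ (U : Submodule F V) (s : ℕ → (V ≃ₗ[F] V)) (t : V ≃ₗ[F] V), U ∈ 𝓐 ∧
      (∀ i, U ⊔ (s i • U) = ⊤) ∧ (∀ i j, i ≠ j → (s i • U) ⊔ (s j • U) = ⊤) ∧
      U ⊔ (t • U) = ⊤ ∧ (s 0 • U) ⊔ (t • U) = ⊤ ∧ (s 1 • U) ⊔ (U ⊓ s 0 • U) = ⊤ ∧
      (∀ x, t.symm x - x - (s 0).symm x ∈ U) := by
  obtain ⟨U, hU, hUr⟩ := exists_dim hV hA
  obtain ⟨e, he⟩ := copies hV U hUr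
  let p : V →ₗ[F] (V ⧸ U) := U.mkQ
  let c : ℕ → (V →ₗ[F] V) := fun i =>
    Finsupp.lapply i ∘ₗ LinearMap.snd F _ _ ∘ₗ (e : V →ₗ[F] ((V ⧸ U) × (ℕ →₀ V)))
  have hc : ∀ i v, c i v = (e v).2 i := fun i v => rfl
  have hp : ∀ x, p x = (e x).1 := fun x => (he x).symm
  -- `y i v` has coordinate `v` at `i`
  let y : ℕ → V → V := fun i v => e.symm (0, Finsupp.single i v)
  have hyp : ∀ i v, p (y i v) = 0 := fun i v => by simp [hp, y]
  have hyi : ∀ i v, c i (y i v) = v := fun i v => by simp [hc, y]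
  have hyj : ∀ i j v, i ≠ j → c j (y i v) = 0 := fun i j v h => by
    simp [hc, y, h]
  let z : (V ⧸ U) → V := fun q => e.symm (q, 0)
  have hzp : ∀ q, p (z q) = q := fun q => by simp [hp, z]
  have hzi : ∀ i q, c i (z q) = 0 := fun i q => by simp [hc, z]
  have hpU : ∀ x, p x = 0 ↔ x ∈ U := fun x => Submodule.Quotient.mk_eq_zero U
  have hpker : LinearMap.ker p = U := U.ker_mkQ
  have hpsurj : Function.Surjective p := U.mkQ_surjective
  -- dimension of kernels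
  have hker : ∀ (f : V →ₗ[F] (V ⧸ U)) (i : ℕ), (∀ v, f (y i v) = 0) →
      Module.rank F (LinearMap.ker f) = Module.rank F V := by
    intro f i h
    apply le_antisymm (Submodule.rank_le _)
    let j : V →ₗ[F] V := (e.symm : ((V ⧸ U) × (ℕ →₀ V)) →ₗ[F] V) ∘ₗ LinearMap.inr F _ _ ∘ₗ
      Finsupp.lsingle i
    have hj : Function.Injective j :=
      e.symm.injective.comp (LinearMap.inr_injective.comp (Finsupp.single_injective i))
    have hle : LinearMap.range j ≤ LinearMap.ker f := by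
      rintro _ ⟨v, rfl⟩
      exact h v
    calc Module.rank F V = Module.rank F (LinearMap.range j) :=
          (LinearEquiv.ofInjective j hj).rank_eq
      _ ≤ _ := Submodule.rank_mono hle
  have h1 : ∀ i, ∃ s : V ≃ₗ[F] V, ∀ x, p (s.symm x) = p (c i x) := by
    intro i
    have hsurj : Function.Surjective (p ∘ₗ c i) := by
      intro q
      obtain ⟨v, rfl⟩ := hpsurj q
      exact ⟨y i v, by rw [LinearMap.comp_apply, hyi]⟩
    obtain ⟨r, hr⟩ := lift_equiv (p ∘ₗ c i) p hsurj hpsurj (by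
      rw [hpker, hUr]
      exact hker _ (i + 1) (fun v => by rw [LinearMap.comp_apply, hyj _ _ _ (by omega), map_zero]))
    exact ⟨r.symm, fun x => hr x⟩
  choose s hs using h1
  have h2 : ∃ t : V ≃ₗ[F] V, ∀ x, p (t.symm x) = p x + p (c 0 x) := by
    have hsurj : Function.Surjective (p + p ∘ₗ c 0) := by
      intro q
      refine ⟨z q, ?_⟩
      rw [LinearMap.add_apply, LinearMap.comp_apply, hzp, hzi, map_zero, add_zero]
    obtain ⟨r, hr⟩ := lift_equiv (p + p ∘ₗ c 0) p hsurj hpsurj (by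
      rw [hpker, hUr]
      exact hker _ 1 (fun v => by
        rw [LinearMap.add_apply, LinearMap.comp_apply, hyp, hyj _ _ _ (by omega), map_zero,
          add_zero]))
    exact ⟨r.symm, fun x => hr x⟩
  obtain ⟨t, ht⟩ := h2
  have hsU : ∀ i x, x ∈ s i • U ↔ p (c i x) = 0 := by
    intro i x
    rw [mem_smul, ← hpU, hs]
  have htU : ∀ x, x ∈ t • U ↔ p x + p (c 0 x) = 0 := by
    intro x
    rw [mem_smul, ← hpU, ht]
  refine ⟨U, s, t, hU, ?_, ?_, ?_, ?_, ?_, ?_⟩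
  · intro i
    refine sup_top fun x => ⟨z (p x), ?_, ?_⟩
    · rw [hsU, hzi, map_zero]
    · rw [← hpU, map_sub, hzp, sub_self]
  · intro i j hij
    refine sup_top fun x => ⟨y i (c i x), ?_, ?_⟩
    · rw [hsU, hyj _ _ _ hij, map_zero]
    · rw [hsU, map_sub, hyi, sub_self, map_zero]
  · rw [sup_comm]
    refine sup_top fun x => ⟨y 0 (x + c 0 x), ?_, ?_⟩
    · rw [← hpU, hyp]
    · rw [htU, map_sub, map_sub, hyp, hyi, sub_zero, ← map_add]
      have : x + (c 0 x - (x + c 0 x)) = 0 := by abel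
      rw [this, map_zero]
  · rw [sup_comm]
    refine sup_top fun x => ⟨z (p x + p (c 0 x)), ?_, ?_⟩
    · rw [hsU, hzi, map_zero]
    · rw [htU, map_sub, map_sub, hzp, hzi, sub_zero]
      abel
  · refine sup_top fun x => ⟨y 1 (c 1 x), ⟨?_, ?_⟩, ?_⟩
    · exact (hpU _).1 (hyp _ _)
    · exact (hsU _ _).2 (by rw [hyj _ _ _ (by omega), map_zero])
    · rw [hsU, map_sub, hyi, sub_self, map_zero]
  · intro x
    rw [← hpU, map_sub, map_sub, ht, hs]
    abel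

theorem emb3 {α : Type*} (a b c : α) (h1 : a ≠ b) (h2 : a ≠ c) (h3 : b ≠ c) :
    Function.Injective ![a, b, c] := by
  intro i j hij
  fin_cases i <;> fin_cases j
  · rfl
  · exact absurd hij h1
  · exact absurd hij h2
  · exact absurd hij h1.symm
  · rfl
  · exact absurd hij h3
  · exact absurd hij h2.symm
  · exact absurd hij h3.symm
  · rfl

/-- The action of `GL(V)` on the orbit of a maximal ideal is `k`-transitive exactly for
`k ≤ 2`. -/
theorem result (F : Type u) (V : Type v) [Field F] [AddCommGroup V] [Module F V]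
    (hV : ℵ₀ ≤ Module.rank F V) (𝓘 : Set (Submodule F V)) (h𝓘 : Maximal IsIdeal 𝓘) (k : ℕ) :
    MulAction.IsMultiplyPretransitive (V ≃ₗ[F] V) (MulAction.orbit (V ≃ₗ[F] V) 𝓘) k ↔
      k ≤ 2 := by
  obtain ⟨U, s, t, hU, hd1, hd2, hd3, hd4, hd5, ht⟩ := translates hV h𝓘
  let a : MulAction.orbit (V ≃ₗ[F] V) 𝓘 := ⟨𝓘, MulAction.mem_orbit_self 𝓘⟩
  let b : ℕ → MulAction.orbit (V ≃ₗ[F] V) 𝓘 := fun i => ⟨s i • 𝓘, MulAction.mem_orbit _ _⟩
  let c : MulAction.orbit (V ≃ₗ[F] V) 𝓘 := ⟨t • 𝓘, MulAction.mem_orbit _ _⟩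
  have hb : Function.Injective b := by
    intro i j hij
    by_contra hne
    refine ne_of_codisj (h𝓘.1.smul (s i)) (Set.smul_mem_smul_set hU)
      (Set.smul_mem_smul_set (a := s j) hU) (hd2 i j hne) ?_
    exact congrArg Subtype.val hij
  have hinf : Infinite (MulAction.orbit (V ≃ₗ[F] V) 𝓘) := Infinite.of_injective b hb
  have h2 : MulAction.IsMultiplyPretransitive (V ≃ₗ[F] V) (MulAction.orbit (V ≃ₗ[F] V) 𝓘) 2 := by
    rw [MulAction.is_two_pretransitive_iff]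
    rintro ⟨_, ⟨x, rfl⟩⟩ ⟨_, ⟨y, rfl⟩⟩ ⟨_, ⟨z, rfl⟩⟩ ⟨_, ⟨w, rfl⟩⟩ hxy hzw
    have hxy' : y • 𝓘 ≠ x • 𝓘 := fun h => hxy (Subtype.ext h.symm)
    have hzw' : w • 𝓘 ≠ z • 𝓘 := fun h => hzw (Subtype.ext h.symm)
    obtain ⟨r, hr1, hr2⟩ := two_trans hV (maxIdeal_smul h𝓘 x) (y * x⁻¹) (z * x⁻¹) (w * x⁻¹)
      (by simpa [smul_smul] using hxy') (by simpa [smul_smul] using hzw')
    refine ⟨r, Subtype.ext ?_, Subtype.ext ?_⟩
    · simpa [smul_smul] using hr1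
    · simpa [smul_smul, mul_assoc] using hr2
  constructor
  · intro hk
    by_contra hlt
    push Not at hlt
    have h3 : MulAction.IsMultiplyPretransitive (V ≃ₗ[F] V)
        (MulAction.orbit (V ≃ₗ[F] V) 𝓘) 3 :=
      MulAction.isMultiplyPretransitive_of_le' (n := k) hlt (by simp)
    have hab : ∀ i, a ≠ b i := fun i h => ne_of_codisj h𝓘.1 hU
      (Set.smul_mem_smul_set (a := s i) hU) (hd1 i) (congrArg Subtype.val h)
    have hac : a ≠ c := fun h => ne_of_codisj h𝓘.1 hU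
      (Set.smul_mem_smul_set (a := t) hU) hd3 (congrArg Subtype.val h)
    have hbc : b 0 ≠ c := fun h => ne_of_codisj (h𝓘.1.smul (s 0)) (Set.smul_mem_smul_set hU)
      (Set.smul_mem_smul_set (a := t) hU) hd4 (congrArg Subtype.val h)
    have hbb : b 0 ≠ b 1 := fun h => absurd (hb h) (by simp)
    let x : Fin 3 ↪ MulAction.orbit (V ≃ₗ[F] V) 𝓘 := ⟨![a, b 0, c], emb3 _ _ _ (hab 0) hac hbc⟩
    let y : Fin 3 ↪ MulAction.orbit (V ≃ₗ[F] V) 𝓘 :=
      ⟨![a, b 0, b 1], emb3 _ _ _ (hab 0) (hab 1) hbb⟩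
    obtain ⟨r, hr⟩ := h3.exists_smul_eq x y
    have hr0 : r • a = a := DFunLike.congr_fun hr 0
    have hr1 : r • b 0 = b 0 := DFunLike.congr_fun hr 1
    have hr2 : r • c = b 1 := DFunLike.congr_fun hr 2
    have hr0' : r • 𝓘 = 𝓘 := congrArg Subtype.val hr0
    have hr1' : r • s 0 • 𝓘 = s 0 • 𝓘 := congrArg Subtype.val hr1
    have hr2' : r • t • 𝓘 = s 1 • 𝓘 := congrArg Subtype.val hr2
    have m1 : r⁻¹ • U ∈ 𝓘 := by
      rw [← mem_smul_set', hr0']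
      exact hU
    have m2 : r⁻¹ • s 0 • U ∈ s 0 • 𝓘 := by
      rw [← mem_smul_set', hr1']
      exact Set.smul_mem_smul_set hU
    have m3 : r⁻¹ • U ⊓ r⁻¹ • s 0 • U ∈ t • 𝓘 := by
      obtain ⟨Z, hZ, hZ'⟩ := m2
      simp only at hZ'
      have h5 := h𝓘.1.sup _ (h𝓘.1.sup _ m1 _ hZ) _ hU
      refine (h𝓘.1.smul t).down _ (Set.smul_mem_smul_set h5) _ ?_
      rw [← hZ']
      intro x hx
      rw [mem_smul]
      obtain ⟨hx1, hx2⟩ := hx
      rw [SetLike.mem_coe, mem_smul] at hx2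
      have h6 : t.symm x = (x + (s 0).symm x) + (t.symm x - x - (s 0).symm x) := by abel
      rw [h6]
      exact Submodule.add_mem_sup (Submodule.add_mem_sup hx1 hx2) (ht x)
    have m4 : U ⊓ s 0 • U ∈ s 1 • 𝓘 := by
      rw [← smul_inf, ← mem_smul_set', hr2'] at m3
      exact m3
    have m5 := (h𝓘.1.smul (s 1)).sup _ (Set.smul_mem_smul_set (a := s 1) hU) _ m4
    rw [hd5] at m5
    exact (h𝓘.1.smul (s 1)).top_notMem m5
  · intro hk
    exact MulAction.isMultiplyPretransitive_of_le' (n := 2) hk (by simp)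

end Pool.Agent.Results.MP_5cf805_al.IdealDegreeTwo
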